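import Mathlib

/- The number of edges of an initial segment of the binary order, and its inequalities. -/

set_option autoImplicit false

namespace Pool.Agent.MP_163ab5_co

/-- The sum of the binary digit sums of the numbers below `k`. -/
def ff : ℕ → ℕ
  | 0 => 0
  | 1 => 0
  | k + 2 => ff (k / 2 + 1) + ff ((k + 1) / 2 + 1) + (k / 2 + 1)
decreasing_by all_goals omega

theorem ff_zero : ff 0 = 0 := by rw [ff]

theorem ff_one : ff 1 = 0 := by rw [ff]

theorem ff_even (a : ℕ) : ff (2 * a) = 2 * ff a + a := by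
  cases a with
  | zero => simp [ff_zero]
  | succ a =>
    rw [show 2 * (a + 1) = 2 * a + 2 by ring, ff, show 2 * a / 2 = a by omega,
      show (2 * a + 1) / 2 = a by omega]
    ring

theorem ff_odd (a : ℕ) : ff (2 * a + 1) = ff a + ff (a + 1) + a := by
  cases a with
  | zero => simp [ff_zero, ff_one]
  | succ a =>
    rw [show 2 * (a + 1) + 1 = (2 * a + 1) + 2 by ring, ff, show (2 * a + 1) / 2 = a by omega,
      show (2 * a + 1 + 1) / 2 = a + 1 by omega]

theorem hart (s : ℕ) : ∀ x y, x + y = s → ff x + ff y + min x y ≤ ff (x + y) := by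
  induction s using Nat.strong_induction_on with
  | _ s ih =>
    intro x y hs
    rcases Nat.eq_zero_or_pos x with rfl | hx
    · simp [ff_zero]
    rcases Nat.eq_zero_or_pos y with rfl | hy
    · simp [ff_zero]
    obtain ⟨a, rfl | rfl⟩ := Nat.even_or_odd' x <;> obtain ⟨b, rfl | rfl⟩ := Nat.even_or_odd' y
    · have h1 := ih _ (by omega) a b rfl
      rw [← mul_add, ff_even, ff_even, ff_even]
      omega
    · have h1 := ih _ (by omega) a b rfl
      have h2 := ih _ (by omega) a (b + 1) rfl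
      rw [← add_assoc, ← mul_add, ff_even, ff_odd, ff_odd]
      rw [← add_assoc] at h2
      omega
    · have h1 := ih _ (by omega) a b rfl
      have h2 := ih _ (by omega) (a + 1) b rfl
      rw [add_right_comm (2 * a), ← mul_add, ff_even, ff_odd, ff_odd]
      rw [add_right_comm a 1 b] at h2
      omega
    · have h1 := ih _ (by omega) a (b + 1) rfl
      have h2 := ih _ (by omega) (a + 1) b rfl
      rw [show 2 * a + 1 + (2 * b + 1) = 2 * (a + b + 1) by ring, ff_even, ff_odd, ff_odd]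
      rw [← add_assoc] at h1
      rw [add_right_comm a 1 b] at h2
      omega

theorem ff_shift (n : ℕ) : ∀ r, r ≤ 2 ^ n → ff (2 ^ n + r) = ff (2 ^ n) + r + ff r := by
  induction n with
  | zero =>
    intro r hr
    have h2 := ff_even 1
    interval_cases r <;> simp_all [ff_zero, ff_one]
  | succ n ih =>
    intro r hr
    rw [pow_succ'] at hr ⊢
    obtain ⟨a, rfl | rfl⟩ := Nat.even_or_odd' r
    · rw [← mul_add, ff_even, ff_even, ff_even, ih a (by omega)]
      ring
    · rw [← add_assoc, ← mul_add, ff_odd, ff_even, ff_odd, ih a (by omega), add_assoc (2 ^ n),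
        ih (a + 1) (by omega)]
      ring

theorem ff_symm (n : ℕ) : ∀ a b, a + b = 2 ^ n → 2 * ff a + n * b = 2 * ff b + n * a := by
  induction n with
  | zero =>
    intro a b h
    have : a = 0 ∧ b = 1 ∨ a = 1 ∧ b = 0 := by omega
    rcases this with ⟨rfl, rfl⟩ | ⟨rfl, rfl⟩ <;> simp [ff_zero, ff_one]
  | succ n ih =>
    intro a b h
    rw [pow_succ'] at h
    obtain ⟨a, rfl | rfl⟩ := Nat.even_or_odd' a <;> obtain ⟨b, rfl | rfl⟩ := Nat.even_or_odd' b
    · have h1 := ih a b (by omega)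
      rw [ff_even, ff_even]
      linarith
    · omega
    · omega
    · have h1 := ih a (b + 1) (by omega)
      have h2 := ih (a + 1) b (by omega)
      rw [ff_odd, ff_odd]
      linarith

theorem ff_chord (n : ℕ) : ∀ r, r ≤ 2 ^ n → 2 * ff r ≤ n * r := by
  induction n with
  | zero =>
    intro r hr
    interval_cases r <;> simp [ff_zero, ff_one]
  | succ n ih =>
    intro r hr
    rw [pow_succ'] at hr
    obtain ⟨a, rfl | rfl⟩ := Nat.even_or_odd' r
    · have h1 := ih a (by omega)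
      rw [ff_even]
      linarith
    · have h1 := ih a (by omega)
      have h2 := ih (a + 1) (by omega)
      rw [ff_odd]
      linarith

theorem ff_pow (n : ℕ) : 2 * ff (2 ^ n) = n * 2 ^ n := by
  simpa [ff_zero] using ff_symm n (2 ^ n) 0 rfl

/-- The bound for the number of ordered adjacent pairs in the folded cube. -/
def gg (n k : ℕ) : ℤ := 2 * ff k + max 0 (2 * k - 2 ^ n : ℤ)

theorem gg_symm {n a b : ℕ} (h : a + b = 2 ^ n) : gg n a = gg n b + (n + 1) * (a - b : ℤ) := by
  have h1 : (2 * ff a + n * b : ℤ) = 2 * ff b + n * a := by exact_mod_cast ff_symm n a b h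
  have h2 : (a + b : ℤ) = 2 ^ n := by exact_mod_cast h
  unfold gg
  rw [← h2]
  rcases le_total (a : ℤ) b with h3 | h3
  · rw [max_eq_left (by linarith), max_eq_right (by linarith)]
    linarith
  · rw [max_eq_right (by linarith), max_eq_left (by linarith)]
    linarith

theorem gg_low {n x y : ℕ} (hxy : y ≤ x) (h : x + y ≤ 2 ^ n) :
    gg n x + gg n y + min (2 * y : ℤ) (2 ^ n - 2 * x + 4 * y) ≤ gg (n + 1) (x + y) := by
  have h0 : ((2 ^ n : ℕ) : ℤ) = 2 ^ n := by push_cast; rfl
  unfold gg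
  rw [pow_succ', ← h0]
  by_cases hx : 2 * x ≤ 2 ^ n
  · have h1 := hart _ x y rfl
    omega
  cases n with
  | zero =>
    have : x = 1 ∧ y = 0 := by omega
    obtain ⟨rfl, rfl⟩ := this
    simp [ff_zero, ff_one]
  | succ n =>
    rw [pow_succ'] at hx h ⊢
    obtain ⟨z, rfl⟩ := Nat.exists_eq_add_of_le (show 2 ^ n ≤ x by omega)
    have h1 := hart _ z y rfl
    have h2 := ff_shift n z (by omega)
    have h3 := ff_shift n (z + y) (by omega)
    rw [add_assoc (2 ^ n)]
    omega

theorem gg_step {n x y : ℕ} (hxy : y ≤ x) (h : x ≤ 2 ^ n) :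
    gg n x + gg n y + min (2 * y : ℤ) (2 ^ n - 2 * x + 4 * y) ≤ gg (n + 1) (x + y) := by
  rcases le_total (x + y) (2 ^ n) with h1 | h1
  · exact gg_low hxy h1
  obtain ⟨a, ha⟩ := Nat.exists_eq_add_of_le h
  obtain ⟨b, hb⟩ := Nat.exists_eq_add_of_le (hxy.trans h)
  have h2 := gg_low (n := n) (x := b) (y := a) (by omega) (by omega)
  have h3 : (2 ^ n : ℤ) = x + a := by exact_mod_cast ha
  have h4 : (2 ^ n : ℤ) = y + b := by exact_mod_cast hb
  rw [gg_symm ha.symm, gg_symm hb.symm,
    gg_symm (n := n + 1) (a := x + y) (b := b + a) (by rw [pow_succ']; omega)]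
  push_cast
  rcases le_total (2 * y : ℤ) (2 ^ n - 2 * x + 4 * y) with h5 | h5
  · rw [min_eq_left h5]
    rw [min_eq_left (by linarith)] at h2
    linarith
  · rw [min_eq_right h5]
    rw [min_eq_right (by linarith)] at h2
    linarith

/-- The chord bound between `5 / 16` and `1 / 2` of the cube. -/
theorem ff_mid (m j : ℕ) (h1 : 5 * 2 ^ m ≤ j) (h2 : j ≤ 8 * 2 ^ m) :
    2 * ff j + min (24 * 2 ^ m - j) (10 * 2 ^ m + j) ≤ (m + 5) * j := by
  obtain ⟨a, rfl⟩ := Nat.exists_eq_add_of_le (show 2 ^ (m + 2) ≤ j by rw [pow_add]; omega)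
  have e2 : 2 ^ (m + 2) = 4 * 2 ^ m := by ring
  have e1 : 2 ^ (m + 1) = 2 * 2 ^ m := by ring
  have s2 := ff_shift (m + 2) a (by omega)
  have p2 := ff_pow (m + 2)
  have p1 := ff_pow (m + 1)
  have p0 := ff_pow m
  have low : ∀ b, 2 ^ m ≤ b → b ≤ 2 * 2 ^ m → 2 * ff b + 2 * 2 ^ m ≤ (m + 2) * b := by
    intro b hb hb'
    obtain ⟨c, rfl⟩ := Nat.exists_eq_add_of_le hb
    have s0 := ff_shift m c (by omega)
    have c0 := ff_chord m c (by omega)
    linarith
  rw [s2]
  rw [e2] at h1 h2 p2 ⊢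
  rcases le_total a (2 * 2 ^ m) with h3 | h3
  · have h4 := low a (by omega) h3
    have h5 := min_le_right (24 * 2 ^ m - (4 * 2 ^ m + a)) (10 * 2 ^ m + (4 * 2 ^ m + a))
    linarith
  obtain ⟨b, rfl⟩ := Nat.exists_eq_add_of_le h3
  have s1 := ff_shift (m + 1) b (by omega)
  rw [e1] at s1 p1
  rw [s1]
  rcases le_total b (2 ^ m) with h4 | h4
  · have h6 := ff_chord m b h4
    have h5 := min_le_right (24 * 2 ^ m - (4 * 2 ^ m + (2 * 2 ^ m + b)))
      (10 * 2 ^ m + (4 * 2 ^ m + (2 * 2 ^ m + b)))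
    linarith
  · have h6 := low b h4 (by omega)
    have h5 := min_le_left (24 * 2 ^ m - (4 * 2 ^ m + (2 * 2 ^ m + b)))
      (10 * 2 ^ m + (4 * 2 ^ m + (2 * 2 ^ m + b)))
    have h7 : 24 * 2 ^ m - (4 * 2 ^ m + (2 * 2 ^ m + b)) + b = 18 * 2 ^ m := by omega
    linarith

end Pool.Agent.MP_163ab5_co
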