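import Mathlib
import Pool.Agent.MP_163ab5_co.Dig

/- The discrete cube and the antipodal edge isoperimetric inequality. -/

set_option autoImplicit false

namespace Pool.Agent.MP_163ab5_co

open Finset

/-- The discrete cube. -/
abbrev Cube (n : ℕ) := Fin n → Bool

variable {n : ℕ}

/-- Change the coordinate `i`. -/
def fl (i : Fin n) (x : Cube n) : Cube n := Function.update x i (!x i)

/-- The antipode. -/
def an (x : Cube n) : Cube n := fun i => !x i

/-- Takes only the values zero and one. -/
def Zo (f : Cube n → ℤ) : Prop := ∀ x, f x = 0 ∨ f x = 1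

/-- Ordered pairs from the support to its complement along edges of the cube. -/
def Bd (f : Cube n → ℤ) : ℤ := ∑ i, ∑ x, f x * (1 - f (fl i x))

/-- Points of the support whose antipode is not in the support. -/
def Od (f : Cube n → ℤ) : ℤ := ∑ x, f x * (1 - f (an x))

/-- Ordered adjacent pairs of the support in the folded cube. -/
def EE (f : Cube n → ℤ) : ℤ := ∑ x, f x * (∑ i, f (fl i x) + f (an x))

theorem fl_self (i : Fin n) (x : Cube n) : fl i x i = !x i := by simp [fl]

theorem fl_ne {i j : Fin n} (h : j ≠ i) (x : Cube n) : fl i x j = x j := by simp [fl, h]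

theorem fl_fl (i : Fin n) (x : Cube n) : fl i (fl i x) = x := by
  ext j
  by_cases h : j = i
  · subst h
    simp [fl_self]
  · simp [fl_ne h]

theorem fl_comm (i j : Fin n) (x : Cube n) : fl i (fl j x) = fl j (fl i x) := by
  ext l
  by_cases h : l = i <;> by_cases h' : l = j
  · rw [← h, ← h']
  · subst h
    simp [fl_self, fl_ne h']
  · subst h'
    simp [fl_self, fl_ne h]
  · simp [fl_ne h, fl_ne h']

theorem an_an (x : Cube n) : an (an x) = x := by
  ext j
  simp [an]

theorem an_fl (i : Fin n) (x : Cube n) : an (fl i x) = fl i (an x) := by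
  ext j
  by_cases h : j = i
  · subst h
    simp [fl_self, an]
  · simp [fl_ne h, an]

theorem sum_fl {M : Type*} [AddCommMonoid M] (i : Fin n) (g : Cube n → M) :
    ∑ x, g (fl i x) = ∑ x, g x := Equiv.sum_comp (Function.Involutive.toPerm _ (fl_fl i)) g

theorem sum_an {M : Type*} [AddCommMonoid M] (g : Cube n → M) :
    ∑ x, g (an x) = ∑ x, g x := Equiv.sum_comp (Function.Involutive.toPerm _ an_an) g

theorem card_cube : Fintype.card (Cube n) = 2 ^ n := by simp

theorem sum_const_cube (c : ℤ) : ∑ _x : Cube n, c = 2 ^ n * c := by simp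

theorem sum_cons (g : Cube (n + 1) → ℤ) :
    ∑ x, g x = ∑ w, g (Fin.cons true w) + ∑ w, g (Fin.cons false w) := by
  rw [← (Fin.consEquiv fun _ => Bool).sum_comp, Fintype.sum_prod_type, Fintype.sum_bool]
  rfl

theorem fl_zero (b : Bool) (w : Cube n) : fl 0 (Fin.cons b w : Cube (n + 1)) = Fin.cons (!b) w := by
  simp [fl]

theorem fl_succ (i : Fin n) (b : Bool) (w : Cube n) :
    fl i.succ (Fin.cons b w : Cube (n + 1)) = Fin.cons b (fl i w) := by
  simp [fl]

theorem an_cons (b : Bool) (w : Cube n) :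
    an (Fin.cons b w : Cube (n + 1)) = Fin.cons (!b) (an w) := by
  ext j
  cases j using Fin.cases <;> simp [an]

theorem Zo.nat {f : Cube n → ℤ} (h : Zo f) : ∃ k : ℕ, ∑ x, f x = k ∧ k ≤ 2 ^ n := by
  obtain ⟨k, hk⟩ := Int.eq_ofNat_of_zero_le
    (Finset.sum_nonneg fun x _ => by rcases h x with e | e <;> simp [e] : 0 ≤ ∑ x, f x)
  refine ⟨k, hk, ?_⟩
  have : ∑ x, f x ≤ ∑ _x : Cube n, (1 : ℤ) :=
    Finset.sum_le_sum fun x _ => by rcases h x with e | e <;> simp [e]
  rw [hk, sum_const_cube, mul_one] at this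
  exact_mod_cast this

/-- The pairs between the two halves, minus the antipodal pairs inside each half. -/
def cr (p q : Cube n → ℤ) : ℤ :=
  ∑ w, (2 * (p w * q w) + p w * q (an w) + q w * p (an w) - p w * p (an w) - q w * q (an w))

theorem cr_comm (p q : Cube n → ℤ) : cr p q = cr q p := Finset.sum_congr rfl fun _ _ => by ring

theorem cr_le {p q : Cube n → ℤ} (hp : Zo p) (hq : Zo q) :
    cr p q ≤ min (2 * ∑ w, q w) (2 ^ n - 2 * ∑ w, p w + 4 * ∑ w, q w) := by
  have h1 : 2 * cr p q = ∑ w, (2 * ((p w + p (an w)) * (q w + q (an w))) -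
      2 * (p w * p (an w)) - 2 * (q w * q (an w))) := by
    rw [two_mul]
    nth_rewrite 1 [cr, ← sum_an]
    rw [cr, ← Finset.sum_add_distrib]
    exact Finset.sum_congr rfl fun w _ => by rw [an_an]; ring
  have h2 : 2 * cr p q ≤ ∑ w, (2 * q w + 2 * q (an w)) := by
    rw [h1]
    refine Finset.sum_le_sum fun w _ => ?_
    rcases hp w with a | a <;> rcases hp (an w) with b | b <;> rcases hq w with c | c <;>
      rcases hq (an w) with d | d <;> simp [a, b, c, d]
  have h3 : 2 * cr p q ≤ ∑ w, (2 - 2 * p w - 2 * p (an w) + 4 * q w + 4 * q (an w)) := by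
    rw [h1]
    refine Finset.sum_le_sum fun w _ => ?_
    rcases hp w with a | a <;> rcases hp (an w) with b | b <;> rcases hq w with c | c <;>
      rcases hq (an w) with d | d <;> simp [a, b, c, d]
  simp only [Finset.sum_add_distrib, Finset.sum_sub_distrib, ← Finset.mul_sum, sum_an p, sum_an q,
    sum_const_cube] at h2 h3
  exact le_min (by linarith) (by linarith)

theorem EE_cons (f : Cube (n + 1) → ℤ) :
    EE f = EE (fun w => f (Fin.cons true w)) + EE (fun w => f (Fin.cons false w)) +
      cr (fun w => f (Fin.cons true w)) fun w => f (Fin.cons false w) := by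
  simp only [EE, cr, sum_cons, Fin.sum_univ_succ, fl_zero, fl_succ, an_cons, Bool.not_true,
    Bool.not_false, ← Finset.sum_add_distrib]
  exact Finset.sum_congr rfl fun w _ => by ring

theorem EE_le : ∀ (n : ℕ) (f : Cube n → ℤ), Zo f → ∀ k : ℕ, ∑ x, f x = k → EE f ≤ gg n k := by
  intro n
  induction n with
  | zero =>
    intro f hf k hk
    obtain ⟨z, hz⟩ : ∃ z : Cube 0, ∀ x, x = z := ⟨default, fun x => Subsingleton.elim _ _⟩
    have hs : ∀ g : Cube 0 → ℤ, ∑ x, g x = g z := fun g =>
      Finset.sum_eq_single z (fun x _ h => (h (hz x)).elim) fun h => (h (mem_univ _)).elim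
    rw [EE, hs, hz (an _), Finset.sum_of_isEmpty, zero_add]
    rw [hs] at hk
    rcases hf z with e | e <;> rw [e] at hk ⊢
    · rw [show k = 0 by omega]
      simp [gg, ff_zero]
    · rw [show k = 1 by omega]
      simp [gg, ff_one]
  | succ n ih =>
    intro f hf k hk
    have hp : Zo fun w : Cube n => f (Fin.cons true w) := fun w => hf _
    have hq : Zo fun w : Cube n => f (Fin.cons false w) := fun w => hf _
    obtain ⟨x, hx, hx'⟩ := hp.nat
    obtain ⟨y, hy, hy'⟩ := hq.nat
    have h1 := ih _ hp x hx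
    have h2 := ih _ hq y hy
    rw [sum_cons, hx, hy] at hk
    obtain rfl : k = x + y := by omega
    rw [EE_cons]
    rcases le_total y x with h | h
    · have h3 := cr_le hp hq
      rw [hx, hy] at h3
      linarith [gg_step h hx']
    · have h3 := cr_le hq hp
      rw [hx, hy, cr_comm] at h3
      rw [add_comm x y]
      linarith [gg_step h hy']

theorem Bd_add_Od {f : Cube n → ℤ} : Bd f + Od f = (n + 1) * ∑ x, f x - EE f := by
  rw [Bd, Od, EE, Finset.sum_comm, Finset.mul_sum, ← Finset.sum_add_distrib,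
    ← Finset.sum_sub_distrib]
  refine Finset.sum_congr rfl fun x _ => ?_
  rw [← Finset.mul_sum, Finset.sum_sub_distrib]
  simp only [sum_const, card_univ, Fintype.card_fin, nsmul_eq_mul, mul_one]
  ring

/-- The boundary of an antipodal family whose density is between `5 / 16` and `1 / 2`. -/
theorem Bd_even {m : ℕ} {g : Cube (m + 4) → ℤ} (hg : Zo g) (he : ∀ x, g (an x) = g x)
    (h1 : 5 * 2 ^ m ≤ ∑ x, g x) (h2 : ∑ x, g x ≤ 8 * 2 ^ m) :
    min (24 * 2 ^ m - ∑ x, g x) (10 * 2 ^ m + ∑ x, g x) ≤ Bd g := by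
  obtain ⟨j, hj, -⟩ := hg.nat
  have h3 := EE_le _ g hg j hj
  have h4 := Bd_add_Od (f := g)
  have h5 : Od g = 0 := Finset.sum_eq_zero fun x _ => by
    rw [he]
    rcases hg x with e | e <;> simp [e]
  rw [hj] at h1 h2 h4 ⊢
  have h0 : ((2 ^ m : ℕ) : ℤ) = 2 ^ m := by push_cast; rfl
  rw [gg, max_eq_left (by rw [pow_add]; linarith)] at h3
  rw [← h0] at h1 h2 ⊢
  have h6 := ff_mid m j (by omega) (by omega)
  have h7 : ((m + 4 : ℕ) + 1 : ℤ) * j = ((m + 5) * j : ℕ) := by push_cast; ring
  omega

/-- The isoperimetric step. -/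
theorem Bd_gt {m : ℕ} {f : Cube (m + 4) → ℤ} (hf : Zo f) (h1 : 6 * 2 ^ m < ∑ x, f x)
    (h2 : ∑ x, f x < 8 * 2 ^ m) (h3 : Od f < 2 ^ m) (h4 : ∑ x, f x + Od f ≤ 8 * 2 ^ m) :
    16 * 2 ^ m < Bd f := by
  have o0 : 0 ≤ Od f := Finset.sum_nonneg fun x _ => by
    rcases hf x with a | a <;> rcases hf (an x) with b | b <;> simp [a, b]
  have s1 : ∑ x, f x * f (an x) = ∑ x, f x - Od f := by
    rw [Od, ← Finset.sum_sub_distrib]
    exact Finset.sum_congr rfl fun _ _ => by ring
  have s2 : ∑ x, (f x + f (an x) - f x * f (an x)) = ∑ x, f x + Od f := by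
    rw [Finset.sum_sub_distrib, Finset.sum_add_distrib, sum_an f, s1]
    ring
  have b1 := Bd_even (g := fun x => f x * f (an x)) (fun x => by
      rcases hf x with a | a <;> rcases hf (an x) with b | b <;> simp [a, b])
    (fun x => by rw [an_an, mul_comm]) (by rw [s1]; linarith) (by rw [s1]; linarith)
  have b2 := Bd_even (g := fun x => f x + f (an x) - f x * f (an x)) (fun x => by
      rcases hf x with a | a <;> rcases hf (an x) with b | b <;> simp [a, b])
    (fun x => by rw [an_an]; ring) (by rw [s2]; linarith) (by rw [s2]; linarith)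
  have b3 : Bd (fun x => f x * f (an x)) + Bd (fun x => f x + f (an x) - f x * f (an x)) ≤
      Bd f + Bd f := by
    simp only [Bd, ← Finset.sum_add_distrib]
    refine Finset.sum_le_sum fun i _ => ?_
    rw [Finset.sum_add_distrib (f := fun x => f x * (1 - f (fl i x)))]
    nth_rewrite 2 [← sum_an fun x => f x * (1 - f (fl i x))]
    rw [← Finset.sum_add_distrib]
    refine Finset.sum_le_sum fun x _ => ?_
    rw [← an_fl]
    rcases hf x with a | a <;> rcases hf (an x) with b | b <;> rcases hf (fl i x) with c | c <;>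
      rcases hf (an (fl i x)) with d | d <;> simp [a, b, c, d]
  rw [s1] at b1
  rw [s2] at b2
  generalize (2 : ℤ) ^ m = M at *
  omega

end Pool.Agent.MP_163ab5_co
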