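import Mathlib
import Pool.Agent.MP_163ab5_co.Cube

/- Fourier expansion on the discrete cube and the level inequality. -/

set_option autoImplicit false

namespace Pool.Agent.MP_163ab5_co

open Finset

variable {n : ℕ}

/-- The sign of a bit. -/
def sg (b : Bool) : ℤ := if b then -1 else 1

/-- The character of a set of coordinates. -/
def ch (S : Finset (Fin n)) (x : Cube n) : ℤ := ∏ i ∈ S, sg (x i)

/-- The Fourier coefficient, not normalised. -/
def hat (f : Cube n → ℤ) (S : Finset (Fin n)) : ℤ := ∑ x, f x * ch S x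

/-- The excess of points without the coordinate `i` over points with it. -/
def cc (f : Cube n → ℤ) (i : Fin n) : ℤ := ∑ x, f x * sg (x i)

theorem sg_not (b : Bool) : sg (!b) = -sg b := by cases b <;> simp [sg]

theorem sg_sq (b : Bool) : sg b * sg b = 1 := by cases b <;> simp [sg]

theorem ch_sq (S : Finset (Fin n)) (x : Cube n) : ch S x * ch S x = 1 := by
  rw [ch, ← Finset.prod_mul_distrib]
  exact Finset.prod_eq_one fun _ _ => sg_sq _

theorem ch_fl (S : Finset (Fin n)) (i : Fin n) (x : Cube n) :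
    ch S (fl i x) = (if i ∈ S then -1 else 1) * ch S x := by
  unfold ch
  split_ifs with h
  · rw [← Finset.mul_prod_erase _ _ h, ← Finset.mul_prod_erase _ (fun j => sg (x j)) h, fl_self,
      sg_not, Finset.prod_congr rfl fun j hj => by rw [fl_ne (Finset.ne_of_mem_erase hj)]]
    ring
  · rw [one_mul]
    exact Finset.prod_congr rfl fun j hj => by rw [fl_ne (ne_of_mem_of_not_mem hj h)]

theorem ch_an (S : Finset (Fin n)) (x : Cube n) : ch S (an x) = (-1) ^ S.card * ch S x := by
  simp only [ch, an, sg_not]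
  exact Finset.prod_neg _

theorem ch_orth (x y : Cube n) : ∑ S, ch S x * ch S y = if x = y then 2 ^ n else 0 := by
  simp only [ch, ← Finset.prod_mul_distrib]
  rw [← Finset.powerset_univ, ← Finset.prod_one_add]
  split_ifs with h
  · subst h
    simp [sg_sq]
  · obtain ⟨i, hi⟩ := Function.ne_iff.1 h
    refine Finset.prod_eq_zero (mem_univ i) ?_
    revert hi
    cases x i <;> cases y i <;> simp [sg]

theorem planch (f g : Cube n → ℤ) : ∑ S, hat f S * hat g S = 2 ^ n * ∑ x, f x * g x := by
  simp only [hat, Finset.sum_mul_sum]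
  rw [Finset.sum_comm, Finset.mul_sum]
  refine Finset.sum_congr rfl fun x _ => ?_
  rw [Finset.sum_comm, Finset.sum_congr rfl fun y _ => show _ = f x * g y * if x = y then 2 ^ n
    else 0 by rw [← ch_orth, Finset.mul_sum]; exact Finset.sum_congr rfl fun _ _ => by ring]
  simp [mul_comm]

theorem hat_fl (f : Cube n → ℤ) (i : Fin n) (S : Finset (Fin n)) :
    hat (fun x => f (fl i x)) S = (if i ∈ S then -1 else 1) * hat f S := by
  rw [hat, ← sum_fl i, hat, Finset.mul_sum]
  exact Finset.sum_congr rfl fun x _ => by rw [fl_fl, ch_fl]; ring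

theorem hat_an (f : Cube n → ℤ) (S : Finset (Fin n)) :
    hat (fun x => f (an x)) S = (-1) ^ S.card * hat f S := by
  rw [hat, ← sum_an, hat, Finset.mul_sum]
  exact Finset.sum_congr rfl fun x _ => by rw [an_an, ch_an]; ring

theorem level {f : Cube n → ℤ} (hf : Zo f) {t : ℤ} (h0 : 0 ≤ t) (h1 : t ≤ 1) :
    4 * (2 ^ n * ∑ x, f x - (∑ x, f x) ^ 2) + t * (2 ^ n * Od f) - (2 + 2 * t) * ∑ i, cc f i ^ 2 ≤
      2 ^ n * Bd f := by
  have e0 : 2 ^ n * ∑ x, f x = ∑ S, hat f S * hat f S := by
    rw [planch]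
    exact congrArg _ (Finset.sum_congr rfl fun x _ => by rcases hf x with a | a <;> simp [a])
  have e1 : ∀ g : Cube n → ℤ, 2 ^ n * ∑ x, f x * (1 - g x) =
      ∑ S, (hat f S * hat f S - hat f S * hat g S) := fun g => by
    rw [Finset.sum_sub_distrib, ← e0, planch, ← mul_sub, ← Finset.sum_sub_distrib]
    exact congrArg _ (Finset.sum_congr rfl fun _ _ => by ring)
  have e2 : 2 ^ n * Bd f = ∑ S, 2 * S.card * hat f S ^ 2 := by
    rw [Bd, Finset.mul_sum, Finset.sum_congr rfl fun i _ => e1 fun x => f (fl i x),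
      Finset.sum_comm]
    refine Finset.sum_congr rfl fun S _ => ?_
    rw [Finset.sum_congr rfl fun i _ => show _ = if i ∈ S then 2 * hat f S ^ 2 else 0 by
      rw [hat_fl]; split_ifs <;> ring]
    simp only [Finset.sum_ite_mem, univ_inter, sum_const, nsmul_eq_mul]
    ring
  have e3 : (∑ x, f x) ^ 2 = ∑ S, if S = ∅ then hat f S ^ 2 else 0 := by simp [hat, ch]
  have e4 : ∑ i, cc f i ^ 2 = ∑ S, ∑ i, if S = {i} then hat f S ^ 2 else 0 := by
    rw [Finset.sum_comm]
    simp [hat, ch, cc]
  rw [e2, e3, e4, Od, e1, e0, ← Finset.sum_sub_distrib, Finset.mul_sum, Finset.mul_sum,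
    Finset.mul_sum, ← Finset.sum_add_distrib, ← Finset.sum_sub_distrib]
  refine Finset.sum_le_sum fun S _ => ?_
  rw [hat_an]
  have q := sq_nonneg (hat f S)
  have q' : 0 ≤ ∑ i, if S = {i} then hat f S ^ 2 else 0 :=
    Finset.sum_nonneg fun i _ => by split_ifs <;> positivity
  rcases (by omega : S.card = 0 ∨ S.card = 1 ∨ S.card = 2 ∨ 3 ≤ S.card) with h | h | h | h
  · rw [if_pos (Finset.card_eq_zero.1 h), h]
    nlinarith
  · obtain ⟨j, rfl⟩ := Finset.card_eq_one.1 h
    simp only [singleton_ne_empty, if_false, singleton_inj, sum_ite_eq, mem_univ, if_true,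
      card_singleton]
    push_cast
    nlinarith
  · rw [if_neg (by rintro rfl; simp at h), h]
    push_cast
    nlinarith [mul_nonneg h0 q']
  · have h3 : (3 : ℤ) ≤ S.card := by exact_mod_cast h
    rw [if_neg (by rintro rfl; simp at h)]
    rcases neg_one_pow_eq_or ℤ S.card with e | e <;> rw [e] <;>
      nlinarith [mul_nonneg h0 q', mul_nonneg (sub_nonneg.2 h1) q, mul_nonneg (sub_nonneg.2 h3) q]

theorem sum_sg (i : Fin n) : ∑ x : Cube n, sg (x i) = 0 := by
  have := sum_fl i fun x : Cube n => sg (x i)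
  simp only [fl_self, sg_not, Finset.sum_neg_distrib] at this
  linarith

theorem cc_le {f : Cube n → ℤ} (hf : Zo f) (i : Fin n) :
    cc f i ≤ ∑ x, f x ∧ cc f i ≤ 2 ^ n - ∑ x, f x := by
  constructor
  · exact Finset.sum_le_sum fun x _ => by
      rcases hf x with a | a <;> cases x i <;> simp [a, sg]
  · have h : ∑ x, (f x * sg (x i) + f x - sg (x i)) ≤ ∑ _x : Cube n, (1 : ℤ) :=
      Finset.sum_le_sum fun x _ => by rcases hf x with a | a <;> cases x i <;> simp [a, sg]
    rw [Finset.sum_sub_distrib, Finset.sum_add_distrib, sum_sg, sum_const_cube] at h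
    rw [cc]
    linarith

theorem Bd_add_cc (f : Cube n → ℤ) :
    Bd f + ∑ i, cc f i = ∑ y, (1 - f y) * ∑ i, f (fl i y) * (1 - sg (y i)) := by
  simp only [Finset.mul_sum]
  rw [Finset.sum_comm, Bd, ← Finset.sum_add_distrib]
  refine Finset.sum_congr rfl fun i _ => ?_
  have h1 := sum_fl i fun x => f x * f (fl i x) * sg (x i)
  simp only [fl_fl, fl_self, sg_not] at h1
  have h2 : ∑ x, f x * f (fl i x) * sg (x i) = 0 := by
    rw [Finset.sum_congr rfl fun x _ => show _ = -(f x * f (fl i x) * sg (x i)) by ring,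
      Finset.sum_neg_distrib] at h1
    linarith
  rw [← sum_fl i fun y => (1 - f y) * (f (fl i y) * (1 - sg (y i))), cc, ← sub_zero (_ + _), ← h2,
    ← Finset.sum_add_distrib, ← Finset.sum_sub_distrib]
  exact Finset.sum_congr rfl fun x _ => by rw [fl_fl, fl_self, sg_not]; ring

end Pool.Agent.MP_163ab5_co
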