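import Mathlib

set_option autoImplicit false

namespace Pool.Agent.MP_163ab5_co.Gap

open Finset

/-- Entropy is at least twice the mass outside the largest part. -/
theorem ent {κ : Type*} [DecidableEq κ] (I : Finset κ) (e : κ → ℝ) (k : κ) (hk : k ∈ I)
    (h0 : ∀ i ∈ I, 0 ≤ e i) (hm : ∀ i ∈ I, e i ≤ e k) :
    ∑ i ∈ I, e i * Real.log (e i) ≤
      (∑ i ∈ I, e i) * Real.log (∑ i ∈ I, e i) - 2 * ((∑ i ∈ I, e i) - e k) * Real.log 2 := by
  have term : ∀ x t : ℝ, 0 ≤ x → x ≤ t → x * Real.log x ≤ x * Real.log t := by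
    intro x t hx hxt
    rcases hx.eq_or_lt with h | h
    · simp [← h]
    · exact mul_le_mul_of_nonneg_left (Real.log_le_log h hxt) hx
  rw [← Finset.add_sum_erase I _ hk, ← Finset.add_sum_erase I e hk]
  set m := e k with hmdef
  set q := ∑ i ∈ I.erase k, e i with hq
  have hm0 : 0 ≤ m := h0 k hk
  have hq0 : 0 ≤ q := Finset.sum_nonneg fun i hi => h0 i (Finset.mem_of_mem_erase hi)
  have hA : ∑ i ∈ I.erase k, e i * Real.log (e i) ≤ q * Real.log q := by
    rw [hq, Finset.sum_mul]
    refine Finset.sum_le_sum fun i hi => term _ _ (h0 i (Finset.mem_of_mem_erase hi)) ?_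
    exact Finset.single_le_sum (f := e) (fun j hj => h0 j (Finset.mem_of_mem_erase hj)) hi
  have hB : ∑ i ∈ I.erase k, e i * Real.log (e i) ≤ q * Real.log m := by
    rw [hq, Finset.sum_mul]
    exact Finset.sum_le_sum fun i hi =>
      term _ _ (h0 i (Finset.mem_of_mem_erase hi)) (hm i (Finset.mem_of_mem_erase hi))
  have l2 : 0 < Real.log 2 := Real.log_pos (by norm_num)
  have l21 : Real.log 2 ≤ 1 := by
    have := Real.log_le_sub_one_of_pos (show (0:ℝ) < 2 by norm_num); linarith
  rcases hq0.eq_or_lt with h | hqp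
  · rw [← h] at hA ⊢
    simp at hA ⊢
    exact hA
  have hmp : 0 < m := by
    rcases hm0.eq_or_lt with h | h
    · exfalso
      have : q ≤ 0 := Finset.sum_nonpos fun i hi => by
        have := hm i (Finset.mem_of_mem_erase hi); linarith
      linarith
    · exact h
  have hs : 0 < m + q := by linarith
  rcases le_total q m with h | h
  · have h1 : Real.log m ≤ Real.log (m + q) := Real.log_le_log hmp (by linarith)
    have h2 : Real.log m + Real.log q ≤ 2 * Real.log (m + q) - 2 * Real.log 2 := by
      have e1 : Real.log (m * q) = Real.log m + Real.log q := Real.log_mul hmp.ne' hqp.ne'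
      have e2 : Real.log (((m + q) / 2) ^ 2) = 2 * Real.log (m + q) - 2 * Real.log 2 := by
        rw [Real.log_pow, Real.log_div hs.ne' (by norm_num)]; push_cast; ring
      rw [← e1, ← e2]
      exact Real.log_le_log (mul_pos hmp hqp) (by nlinarith [sq_nonneg (m - q)])
    have h3 := mul_le_mul_of_nonneg_left h1 (sub_nonneg.2 h)
    have h4 := mul_le_mul_of_nonneg_left h2 hq0
    nlinarith
  · have h1 : Real.log (2 * m / (m + q)) ≤ 2 * m / (m + q) - 1 :=
      Real.log_le_sub_one_of_pos (by positivity)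
    rw [Real.log_div (by positivity) hs.ne', Real.log_mul (by norm_num) hmp.ne'] at h1
    have h2 := mul_le_mul_of_nonneg_left h1 hs.le
    have h3 : (m + q) * (2 * m / (m + q) - 1) = m - q := by field_simp; ring
    rw [h3] at h2
    have h4 : (m - q) ≤ (m - q) * Real.log 2 := by nlinarith
    nlinarith

/-- The sign of a point with respect to a set. -/
noncomputable def sg (z : ℕ) (X : Finset ℕ) : ℝ := if z ∈ X then 1 else -1

theorem sum_sg (z : ℕ) (G : Finset (Finset ℕ)) :
    ∑ X ∈ G, sg z X = 2 * ((G.filter (fun X => z ∈ X)).card : ℝ) - G.card := by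
  have : ∀ X ∈ G, sg z X = 2 * (if z ∈ X then (1:ℝ) else 0) - 1 := by
    intro X _; unfold sg; split_ifs <;> norm_num
  rw [Finset.sum_congr rfl this, Finset.sum_sub_distrib, ← Finset.mul_sum, Finset.sum_boole]
  simp

variable {ι : Type*} [DecidableEq ι] (C : ι → Finset ℕ)

omit [DecidableEq ι] in
theorem union_inter {i j : ι} (hd : ∀ i j, i ≠ j → Disjoint (C i) (C j)) (h : j ≠ i)
    (X : Finset ℕ) : (X ∪ C j) ∩ C i = X ∩ C i := by
  rw [Finset.union_inter_distrib_right, Finset.disjoint_iff_inter_eq_empty.1 (hd j i h)]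
  simp

/-- Isoperimetric inequality for families closed under filling blocks. -/
theorem iso (hd : ∀ i j, i ≠ j → Disjoint (C i) (C j)) (z : ι → ℕ) (hz : ∀ i, z i ∈ C i)
    (J : Finset ι) : ∀ G : Finset (Finset ℕ), (∀ j ∈ J, ∀ X ∈ G, X ∪ C j ∈ G) →
      (G.card : ℝ) * J.card * Real.log 2 - G.card * Real.log G.card ≤
        Real.log 2 * ∑ X ∈ G, ∑ j ∈ J, sg (z j) X := by
  have l2 : 0 < Real.log 2 := Real.log_pos (by norm_num)
  induction J using Finset.induction_on with
  | empty =>
    intro G _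
    have : (0:ℝ) ≤ G.card * Real.log G.card :=
      mul_nonneg (Nat.cast_nonneg _) (Real.log_natCast_nonneg _)
    simpa using this
  | insert a J ha ih =>
    intro G hG
    have hmap : ∀ X ∈ G, X ∩ C a ∈ (C a).powerset := fun X _ =>
      Finset.mem_powerset.2 Finset.inter_subset_right
    set F : Finset ℕ → Finset (Finset ℕ) := fun Y => G.filter (fun X => X ∩ C a = Y) with hF
    have hcl : ∀ Y, ∀ j ∈ J, ∀ X ∈ F Y, X ∪ C j ∈ F Y := by
      intro Y j hj X hX
      rw [hF, Finset.mem_filter] at hX ⊢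
      refine ⟨hG j (Finset.mem_insert_of_mem hj) X hX.1, ?_⟩
      rw [union_inter C hd (fun h : j = a => ha (h ▸ hj)), hX.2]
    have hcard : (G.card : ℝ) = ∑ Y ∈ (C a).powerset, ((F Y).card : ℝ) := by
      exact_mod_cast Finset.card_eq_sum_card_fiberwise hmap
    have hmax : ∀ Y ∈ (C a).powerset, ((F Y).card : ℝ) ≤ (F (C a)).card := by
      intro Y _
      refine Nat.cast_le.2 (Finset.card_le_card_of_injOn (fun X => X ∪ C a) ?_ ?_)
      · intro X hX
        have hX' := Finset.mem_filter.1 (Finset.mem_coe.1 hX)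
        refine Finset.mem_coe.2 (Finset.mem_filter.2
          ⟨hG a (Finset.mem_insert_self _ _) X hX'.1, ?_⟩)
        exact Finset.union_inter_cancel_right
      · intro X hX X' hX' hh
        have h1 := (Finset.mem_filter.1 (Finset.mem_coe.1 hX)).2
        have h2 := (Finset.mem_filter.1 (Finset.mem_coe.1 hX')).2
        have h3 := h1.trans h2.symm
        ext u
        have a1 := Finset.ext_iff.1 hh u
        have a2 := Finset.ext_iff.1 h3 u
        simp only [Finset.mem_union, Finset.mem_inter] at a1 a2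
        tauto
    have hent := ent (C a).powerset (fun Y => ((F Y).card : ℝ)) (C a)
      (Finset.mem_powerset_self _) (fun _ _ => Nat.cast_nonneg _) hmax
    rw [← hcard] at hent
    have hsum : ∑ X ∈ G, ∑ j ∈ J, sg (z j) X =
        ∑ Y ∈ (C a).powerset, ∑ X ∈ F Y, ∑ j ∈ J, sg (z j) X :=
      (Finset.sum_fiberwise_of_maps_to hmap _).symm
    have h1 : (G.card : ℝ) * J.card * Real.log 2 -
        ∑ Y ∈ (C a).powerset, ((F Y).card : ℝ) * Real.log (F Y).card ≤
        Real.log 2 * ∑ X ∈ G, ∑ j ∈ J, sg (z j) X := by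
      rw [hsum, Finset.mul_sum, hcard, Finset.sum_mul, Finset.sum_mul, ← Finset.sum_sub_distrib]
      exact Finset.sum_le_sum fun Y _ => ih (F Y) (hcl Y)
    have h2 : 2 * ((F (C a)).card : ℝ) - G.card ≤ ∑ X ∈ G, sg (z a) X := by
      rw [sum_sg]
      have : (F (C a)).card ≤ (G.filter (fun X => z a ∈ X)).card := by
        refine Finset.card_le_card fun X hX => ?_
        have hX' := Finset.mem_filter.1 hX
        refine Finset.mem_filter.2 ⟨hX'.1, ?_⟩
        have := hz a
        rw [← hX'.2] at this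
        exact (Finset.mem_inter.1 this).1
      have : ((F (C a)).card : ℝ) ≤ (G.filter (fun X => z a ∈ X)).card := by exact_mod_cast this
      linarith
    have h3 : ∑ X ∈ G, ∑ j ∈ insert a J, sg (z j) X =
        ∑ X ∈ G, sg (z a) X + ∑ X ∈ G, ∑ j ∈ J, sg (z j) X := by
      rw [← Finset.sum_add_distrib]
      exact Finset.sum_congr rfl fun X _ => Finset.sum_insert ha
    rw [h3, Finset.card_insert_of_notMem ha]
    push_cast
    have h4 := mul_le_mul_of_nonneg_left h2 l2.le
    nlinarith

section Blocks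

variable {d : ℕ} (C : Fin d → Finset ℕ)

/-- The blocks that a set meets without containing them. -/
def bad (X : Finset ℕ) : Finset (Fin d) :=
  Finset.univ.filter (fun i => X ∩ C i ≠ ∅ ∧ X ∩ C i ≠ C i)

/-- The unions of blocks. -/
def BB : Finset (Finset ℕ) := Finset.univ.image (fun T : Finset (Fin d) => T.biUnion C)

/-- The first block cut by a set, with the trace on it. -/
def key (X : Finset ℕ) : Option (Fin d × Finset ℕ) :=
  if h : (bad C X).Nonempty then some ((bad C X).min' h, X ∩ C ((bad C X).min' h)) else none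

theorem key_none {X : Finset ℕ} : key C X = none ↔ bad C X = ∅ := by
  unfold key
  split_ifs with h
  · simpa using h.ne_empty
  · simpa using h

theorem key_some {X : Finset ℕ} {i : Fin d} {Y : Finset ℕ} :
    key C X = some (i, Y) ↔ i ∈ bad C X ∧ (∀ j ∈ bad C X, i ≤ j) ∧ X ∩ C i = Y := by
  unfold key
  split_ifs with h
  · constructor
    · intro e
      simp only [Option.some.injEq, Prod.mk.injEq] at e
      obtain ⟨e1, e2⟩ := e
      subst e1
      exact ⟨Finset.min'_mem _ h, fun j hj => Finset.min'_le _ j hj, e2⟩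
    · rintro ⟨h1, h2, h3⟩
      have : (bad C X).min' h = i :=
        le_antisymm (Finset.min'_le _ i h1) (h2 _ (Finset.min'_mem _ h))
      rw [this, h3]
  · constructor
    · intro e; cases e
    · rintro ⟨h1, -⟩; exact absurd ⟨i, h1⟩ h

variable {C}

theorem bad_union (hd : ∀ i j, i ≠ j → Disjoint (C i) (C j)) (X : Finset ℕ) (j : Fin d) :
    bad C (X ∪ C j) = (bad C X).erase j := by
  ext i
  simp only [bad, Finset.mem_filter, Finset.mem_univ, true_and, Finset.mem_erase]
  by_cases h : i = j
  · subst h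
    simp [Finset.union_inter_cancel_right]
  · rw [union_inter C hd (Ne.symm h)]
    simp [h]

theorem bi_inter (hd : ∀ i j, i ≠ j → Disjoint (C i) (C j)) (T : Finset (Fin d)) (i : Fin d) :
    T.biUnion C ∩ C i = if i ∈ T then C i else ∅ := by
  split_ifs with h
  · exact Finset.inter_eq_right.2 (Finset.subset_biUnion_of_mem C h)
  · rw [← Finset.disjoint_iff_inter_eq_empty, Finset.disjoint_biUnion_left]
    exact fun j hj => hd j i fun e => h (e ▸ hj)

theorem bad_BB (hd : ∀ i j, i ≠ j → Disjoint (C i) (C j)) {X : Finset ℕ} (h : X ∈ BB C) :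
    bad C X = ∅ := by
  obtain ⟨T, -, rfl⟩ := Finset.mem_image.1 h
  ext i
  simp only [bad, Finset.mem_filter, Finset.mem_univ, true_and, bi_inter hd]
  split_ifs <;> simp

theorem union_BB {X : Finset ℕ} (h : X ∈ BB C) (j : Fin d) : X ∪ C j ∈ BB C := by
  obtain ⟨T, -, rfl⟩ := Finset.mem_image.1 h
  refine Finset.mem_image.2 ⟨insert j T, Finset.mem_univ _, ?_⟩
  rw [Finset.biUnion_insert, Finset.union_comm]

theorem BB_of_union {X : Finset ℕ} (hb : bad C X = ∅) {j : Fin d} (h : X ∪ C j ∈ BB C) :
    X ∈ BB C := by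
  obtain ⟨T, -, hT⟩ := Finset.mem_image.1 h
  refine Finset.mem_image.2 ⟨Finset.univ.filter (fun i => C i ⊆ X), Finset.mem_univ _, ?_⟩
  ext u
  simp only [Finset.mem_biUnion, Finset.mem_filter, Finset.mem_univ, true_and]
  constructor
  · rintro ⟨i, h1, h2⟩; exact h1 h2
  · intro hu
    have : u ∈ T.biUnion C := by rw [hT]; exact Finset.mem_union_left _ hu
    obtain ⟨i, -, hi⟩ := Finset.mem_biUnion.1 this
    refine ⟨i, ?_, hi⟩
    have hn : i ∉ bad C X := by rw [hb]; simp
    simp only [bad, Finset.mem_filter, Finset.mem_univ, true_and, not_and, not_not] at hn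
    exact Finset.inter_eq_right.1
      (hn (Finset.ne_empty_of_mem (Finset.mem_inter.2 ⟨hu, hi⟩)))

theorem bi_inj (hd : ∀ i j, i ≠ j → Disjoint (C i) (C j)) (hne : ∀ i, (C i).Nonempty) :
    Function.Injective (fun T : Finset (Fin d) => T.biUnion C) := by
  intro T T' h
  ext i
  have h1 := bi_inter hd T i
  have h2 := bi_inter hd T' i
  have h3 := (hne i).ne_empty
  simp only at h
  rw [h, h2] at h1
  by_cases a : i ∈ T <;> by_cases b : i ∈ T' <;> simp_all

theorem card_BB (hd : ∀ i j, i ≠ j → Disjoint (C i) (C j)) (hne : ∀ i, (C i).Nonempty) :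
    (BB C).card = 2 ^ d := by
  rw [BB, Finset.card_image_of_injective _ (bi_inj hd hne)]
  simp

/-- The same inequality for a family that is closed under filling only up to the unions of
blocks, for a well chosen transversal. -/
theorem isoE (hd : ∀ i j, i ≠ j → Disjoint (C i) (C j)) (hne : ∀ i, (C i).Nonempty)
    (E : Finset (Finset ℕ)) (hB : ∀ X ∈ E, X ∉ BB C)
    (hE : ∀ X ∈ E, ∀ j, X ∪ C j ∈ E ∨ X ∪ C j ∈ BB C) :
    ∃ z : Fin d → ℕ, (∀ i, z i ∈ C i) ∧
      (E.card : ℝ) * d * Real.log 2 - E.card * Real.log E.card ≤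
        Real.log 2 * ∑ X ∈ E, ∑ j, sg (z j) X := by
  classical
  have l2 : 0 < Real.log 2 := Real.log_pos (by norm_num)
  rcases E.eq_empty_or_nonempty with rfl | hEne
  · exact ⟨fun i => (hne i).choose, fun i => (hne i).choose_spec, by simp⟩
  set F : Option (Fin d × Finset ℕ) → Finset (Finset ℕ) :=
    fun k => E.filter (fun X => key C X = k) with hF
  obtain ⟨k, hk, hmax⟩ := Finset.exists_max_image (E.image (key C)) (fun k => (F k).card)
    (hEne.image _)
  obtain ⟨z, hz, hzk⟩ : ∃ z : Fin d → ℕ, (∀ i, z i ∈ C i) ∧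
      ∀ i Y, k = some (i, Y) → z i ∈ Y := by
    have : ∀ i, ∃ u, u ∈ C i ∧ ∀ Y, k = some (i, Y) → u ∈ Y := by
      intro i
      by_cases h : ∃ Y, k = some (i, Y)
      · obtain ⟨Y, hY⟩ := h
        obtain ⟨X, -, hX⟩ := Finset.mem_image.1 hk
        rw [hY, key_some] at hX
        have h1 := (Finset.mem_filter.1 hX.1).2.1
        obtain ⟨u, hu⟩ := Finset.nonempty_iff_ne_empty.2 h1
        refine ⟨u, (Finset.mem_inter.1 hu).2, fun Y' hY' => ?_⟩
        rw [hY] at hY'
        simp only [Option.some.injEq, Prod.mk.injEq, true_and] at hY'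
        rw [← hY', ← hX.2.2]; exact hu
      · obtain ⟨u, hu⟩ := hne i
        exact ⟨u, hu, fun Y hY => absurd ⟨Y, hY⟩ h⟩
    choose z h1 h2 using this
    exact ⟨z, h1, h2⟩
  refine ⟨z, hz, ?_⟩
  have hmap : ∀ X ∈ E, key C X ∈ E.image (key C) := fun X hX => Finset.mem_image_of_mem _ hX
  have hcard : (E.card : ℝ) = ∑ l ∈ E.image (key C), ((F l).card : ℝ) := by
    exact_mod_cast Finset.card_eq_sum_card_fiberwise hmap
  have hent := ent (E.image (key C)) (fun l => ((F l).card : ℝ)) k hk
    (fun _ _ => Nat.cast_nonneg _) (fun l hl => Nat.cast_le.2 (hmax l hl))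
  rw [← hcard] at hent
  have hsum : ∑ X ∈ E, ∑ j, sg (z j) X =
      ∑ l ∈ E.image (key C), ∑ X ∈ F l, ∑ j, sg (z j) X :=
    (Finset.sum_fiberwise_of_maps_to hmap _).symm
  have hgrp : ∀ l, ((F l).card : ℝ) * (d - 2) * Real.log 2 - (F l).card * Real.log (F l).card
      + (if l = k then 2 * ((F k).card : ℝ) * Real.log 2 else 0) ≤
      Real.log 2 * ∑ X ∈ F l, ∑ j, sg (z j) X := by
    intro l
    have hp : 0 ≤ ((F l).card : ℝ) * Real.log 2 := mul_nonneg (Nat.cast_nonneg _) l2.le
    rcases l with _ | ⟨i, Y⟩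
    · have := iso C hd z hz Finset.univ (F none) (by
        intro j _ X hX
        have hX' := Finset.mem_filter.1 hX
        have hb := (key_none C).1 hX'.2
        refine Finset.mem_filter.2 ⟨?_, (key_none C).2 (by rw [bad_union hd, hb]; simp)⟩
        exact (hE X hX'.1 j).resolve_right fun h => hB X hX'.1 (BB_of_union hb h))
      simp only [Finset.card_univ, Fintype.card_fin] at this
      split_ifs with h
      · rw [← h]; nlinarith
      · nlinarith
    · have := iso C hd z hz (Finset.univ.erase i) (F (some (i, Y))) (by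
        intro j hj X hX
        have hji := (Finset.mem_erase.1 hj).1
        have hX' := Finset.mem_filter.1 hX
        have hb := (key_some C).1 hX'.2
        have hi : i ∈ bad C (X ∪ C j) := by
          rw [bad_union hd]; exact Finset.mem_erase.2 ⟨hji.symm, hb.1⟩
        refine Finset.mem_filter.2 ⟨?_, (key_some C).2 ⟨hi, fun m hm => ?_, ?_⟩⟩
        · refine (hE X hX'.1 j).resolve_right fun h => ?_
          rw [bad_BB hd h] at hi; simp at hi
        · rw [bad_union hd] at hm
          exact hb.2.1 m (Finset.mem_of_mem_erase hm)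
        · rw [union_inter C hd hji, hb.2.2])
      have hc : (((Finset.univ.erase i).card : ℕ) : ℝ) = d - 1 := by
        rw [Finset.card_erase_of_mem (Finset.mem_univ _), Finset.card_univ, Fintype.card_fin,
          Nat.cast_sub (Nat.succ_le_of_lt i.pos)]
        simp
      rw [hc] at this
      have h3 : ∑ X ∈ F (some (i, Y)), ∑ j, sg (z j) X = ∑ X ∈ F (some (i, Y)), sg (z i) X +
          ∑ X ∈ F (some (i, Y)), ∑ j ∈ Finset.univ.erase i, sg (z j) X := by
        rw [← Finset.sum_add_distrib]
        exact Finset.sum_congr rfl fun X _ =>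
          (Finset.add_sum_erase _ (fun j => sg (z j) X) (Finset.mem_univ i)).symm
      rw [h3]
      split_ifs with h
      · have h4 : ∑ X ∈ F (some (i, Y)), sg (z i) X = (F (some (i, Y))).card := by
          rw [Finset.card_eq_sum_ones, Nat.cast_sum]
          refine Finset.sum_congr rfl fun X hX => ?_
          have hb := (key_some C).1 (Finset.mem_filter.1 hX).2
          have := hzk i Y h.symm
          rw [← hb.2.2] at this
          simp [sg, (Finset.mem_inter.1 this).1]
        rw [← h, h4]; nlinarith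
      · have h4 : -((F (some (i, Y))).card : ℝ) ≤ ∑ X ∈ F (some (i, Y)), sg (z i) X := by
          rw [sum_sg]
          have : (0:ℝ) ≤ ((F (some (i, Y))).filter (fun X => z i ∈ X)).card := Nat.cast_nonneg _
          linarith
        have h5 := mul_le_mul_of_nonneg_left h4 l2.le
        nlinarith
  have h1 := Finset.sum_le_sum fun l (_ : l ∈ E.image (key C)) => hgrp l
  rw [← Finset.mul_sum, ← hsum, Finset.sum_add_distrib, Finset.sum_sub_distrib,
    ← Finset.sum_mul, ← Finset.sum_mul, ← hcard, Finset.sum_ite_eq', if_pos hk] at h1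
  nlinarith

theorem bi_mem {A : Finset (Finset ℕ)} (hc : ∀ X ∈ A, ∀ Y ∈ A, X ∪ Y ∈ A) (hC : ∀ i, C i ∈ A)
    (T : Finset (Fin d)) (hT : T.Nonempty) : T.biUnion C ∈ A := by
  induction hT using Finset.Nonempty.cons_induction with
  | singleton a => simpa using hC a
  | cons a s h hs ih =>
    rw [Finset.cons_eq_insert, Finset.biUnion_insert]
    exact hc _ (hC a) _ ih

theorem gap_nonneg {d n : ℕ} (h : n ≤ 2 ^ d) :
    0 ≤ (n : ℝ) * d * Real.log 2 - n * Real.log n := by
  rcases Nat.eq_zero_or_pos n with rfl | hn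
  · simp
  have h1 : Real.log n ≤ d * Real.log 2 := by
    rw [← Real.log_pow]
    exact Real.log_le_log (by exact_mod_cast hn) (by exact_mod_cast h)
  have := mul_le_mul_of_nonneg_left h1 (Nat.cast_nonneg (α := ℝ) n)
  nlinarith

theorem gap_pos {d n : ℕ} (hn : 0 < n) (h : n < 2 ^ d) :
    0 < (n : ℝ) * d * Real.log 2 - n * Real.log n := by
  have h1 : Real.log n < d * Real.log 2 := by
    rw [← Real.log_pow]
    exact Real.log_lt_log (by exact_mod_cast hn) (by exact_mod_cast h)
  have := mul_lt_mul_of_pos_left h1 (show (0:ℝ) < n by exact_mod_cast hn)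
  nlinarith

theorem main (hd0 : 0 < d) (A : Finset (Finset ℕ)) (hc : ∀ X ∈ A, ∀ Y ∈ A, X ∪ Y ∈ A)
    (hC : ∀ i, C i ∈ A) (hne : ∀ i, (C i).Nonempty)
    (hd : ∀ i j, i ≠ j → Disjoint (C i) (C j)) (hN : A.card < 2 ^ (d + 1))
    (hf : ∀ i, ∀ z ∈ C i, 2 * (A.filter (fun X => z ∈ X)).card ≤ A.card) : A = BB C := by
  classical
  have l2 : 0 < Real.log 2 := Real.log_pos (by norm_num)
  set B := A.filter (fun X => X ∈ BB C) with hBdef
  set E := A.filter (fun X => X ∉ BB C) with hEdef
  have hBE : B.card + E.card = A.card := Finset.card_filter_add_card_filter_not _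
  have hsub : B ⊆ BB C := fun X hX => (Finset.mem_filter.1 hX).2
  have hBle : B.card ≤ 2 ^ d := by rw [← card_BB hd hne]; exact Finset.card_le_card hsub
  have hBge : 2 ^ d ≤ B.card + 1 := by
    rw [← card_BB hd hne]
    refine (Finset.card_le_card (t := insert ∅ B) fun X hX => ?_).trans
      (Finset.card_insert_le _ _)
    obtain ⟨T, -, rfl⟩ := Finset.mem_image.1 hX
    rcases T.eq_empty_or_nonempty with rfl | hT
    · simp
    · exact Finset.mem_insert_of_mem (Finset.mem_filter.2 ⟨bi_mem hc hC T hT, hX⟩)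
  have h2d : 2 ≤ 2 ^ d := by
    calc 2 = 2 ^ 1 := rfl
      _ ≤ 2 ^ d := Nat.pow_le_pow_right (by norm_num) hd0
  obtain ⟨z, hz, hE⟩ := isoE hd hne E (fun X hX => (Finset.mem_filter.1 hX).2) (by
    intro X hX j
    by_cases h : X ∪ C j ∈ BB C
    · exact Or.inr h
    · exact Or.inl (Finset.mem_filter.2 ⟨hc _ (Finset.mem_filter.1 hX).1 _ (hC j), h⟩))
  have hB := iso C hd z hz Finset.univ B (by
    intro j _ X hX
    have hX' := Finset.mem_filter.1 hX
    exact Finset.mem_filter.2 ⟨hc _ hX'.1 _ (hC j), union_BB hX'.2 j⟩)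
  simp only [Finset.card_univ, Fintype.card_fin] at hB
  have htot : ∑ X ∈ B, ∑ j, sg (z j) X + ∑ X ∈ E, ∑ j, sg (z j) X ≤ 0 := by
    rw [hBdef, hEdef, Finset.sum_filter_add_sum_filter_not, Finset.sum_comm]
    refine Finset.sum_nonpos fun j _ => ?_
    rw [sum_sg]
    have : (2:ℝ) * (A.filter (fun X => z j ∈ X)).card ≤ A.card := by
      exact_mod_cast hf j (z j) (hz j)
    linarith
  have h5 := mul_le_mul_of_nonneg_left htot l2.le
  rw [pow_succ] at hN
  have g1 := gap_nonneg hBle
  have g2 := gap_nonneg (show E.card ≤ 2 ^ d by omega)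
  have hBeq : B.card = 2 ^ d := by
    by_contra h
    have := gap_pos (show 0 < B.card by omega) (show B.card < 2 ^ d by omega)
    nlinarith
  have hE0 : E.card = 0 := by
    by_contra h
    have := gap_pos (show 0 < E.card by omega) (show E.card < 2 ^ d by omega)
    nlinarith
  have hAB : B = A := Finset.eq_of_subset_of_card_le (Finset.filter_subset _ _) (by omega)
  rw [← hAB]
  exact Finset.eq_of_subset_of_card_le hsub (by rw [card_BB hd hne, hBeq])

end Blocks

/-- Shattering form: a union-closed family that shatters `S`, has fewer than `(3/2) 2^|S|` members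
and no element in more than half of them has exactly `2^|S|` members. -/
theorem vc (A : Finset (Finset ℕ)) (hc : ∀ X ∈ A, ∀ Y ∈ A, X ∪ Y ∈ A) (S : Finset ℕ)
    (hS : A.Shatters S) (hN : 2 * A.card < 3 * 2 ^ S.card)
    (hf : ∀ z, 2 * (A.filter (fun X => z ∈ X)).card ≤ A.card) : A.card = 2 ^ S.card := by
  classical
  rcases Nat.eq_zero_or_pos S.card with h0 | h0
  · obtain ⟨u, hu, -⟩ := hS (Finset.empty_subset S)
    have := Finset.card_pos.2 ⟨u, hu⟩
    rw [h0] at hN ⊢
    omega
  let e : Fin S.card → ℕ := fun i => (S.equivFin.symm i).1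
  have e1 : Function.Injective e := Subtype.val_injective.comp S.equivFin.symm.injective
  have e2 : ∀ i, e i ∈ S := fun i => (S.equivFin.symm i).2
  choose C hC hCS using fun i => hS (Finset.singleton_subset_iff.2 (e2 i))
  have hm : ∀ i j, e i ∈ C j ↔ i = j := fun i j => by
    have := Finset.ext_iff.1 (hCS j) (e i)
    simpa [e2 i, e1.eq_iff] using this
  have hne : ∀ i, (C i).Nonempty := fun i => ⟨e i, (hm i i).2 rfl⟩
  have hd : ∀ i j, i ≠ j → Disjoint (C i) (C j) := by
    intro i j hij
    rw [Finset.disjoint_left]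
    intro z hi hj
    have h1 : (Finset.univ \ ((Finset.univ \ {i, j} : Finset (Fin S.card)).powerset)).card ≤
        (A.filter (fun X => z ∈ X)).card := by
      refine Finset.card_le_card_of_injOn (fun T => T.biUnion C) ?_ ?_
      · intro T hT
        have hT' := (Finset.mem_sdiff.1 (Finset.mem_coe.1 hT)).2
        rw [Finset.mem_powerset, Finset.not_subset] at hT'
        obtain ⟨m, hm1, hm2⟩ := hT'
        refine Finset.mem_coe.2 (Finset.mem_filter.2 ⟨bi_mem hc hC T ⟨m, hm1⟩, ?_⟩)
        refine Finset.mem_biUnion.2 ⟨m, hm1, ?_⟩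
        have : m = i ∨ m = j := by
          by_contra h
          exact hm2 (by simpa using h)
        rcases this with rfl | rfl
        exacts [hi, hj]
      · intro T _ T' _ h
        ext m
        have := Finset.ext_iff.1 h (e m)
        simpa [hm] using this
    have h2 : 2 ≤ S.card := by
      have := Finset.card_le_univ ({i, j} : Finset (Fin S.card))
      rwa [Finset.card_pair hij, Fintype.card_fin] at this
    rw [Finset.card_univ_sdiff, Finset.card_powerset, Finset.card_univ_sdiff,
      Finset.card_pair hij] at h1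
    simp only [Fintype.card_finset, Fintype.card_fin] at h1
    obtain ⟨m, hm'⟩ := Nat.exists_eq_add_of_le h2
    have h3 := hf z
    rw [hm', Nat.add_sub_cancel_left, pow_add] at h1
    rw [hm', pow_add] at hN
    omega
  rw [main h0 A hc hC hne hd (by rw [pow_succ]; omega) (fun _ z _ => hf z), card_BB hd hne]

end Pool.Agent.MP_163ab5_co.Gap
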