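import Mathlib
import Pool.Agent.MP_163ab5_co.Four

/- A subset of the cube whose components each miss a direction fills at most half of the cube,
by signed adjacency operators. -/

set_option autoImplicit false

namespace Pool.Agent.MP_163ab5_co

open Finset

variable {n : ℕ}

/-- The signed adjacency operator in the directions of `T`. -/
noncomputable def BB (T : Finset (Fin n)) (v : Cube n → ℝ) (x : Cube n) : ℝ :=
  ∑ i ∈ T, (ch (Iio i) x : ℝ) * v (fl i x)

theorem ch_sq' (S : Finset (Fin n)) (x : Cube n) : (ch S x : ℝ) * ch S x = 1 := by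
  exact_mod_cast ch_sq S x

theorem BB_BB (T : Finset (Fin n)) (v : Cube n → ℝ) (x : Cube n) :
    BB T (BB T v) x = T.card * v x := by
  let a : Fin n → Fin n → ℝ := fun i j =>
    (ch (Iio i) x : ℝ) * ((ch (Iio j) (fl i x) : ℝ) * v (fl j (fl i x)))
  have h1 : BB T (BB T v) x = ∑ i ∈ T, ∑ j ∈ T, a i j := by simp only [BB, Finset.mul_sum, a]
  have h2 : ∀ i j, a i j + a j i = if i = j then 2 * v x else 0 := by
    intro i j
    simp only [a, ch_fl, mem_Iio, fl_comm i j]
    rcases lt_trichotomy i j with h | h | h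
    · simp only [h, h.ne, h.not_gt, if_true, if_false]
      push_cast
      ring
    · subst h
      simp only [lt_irrefl, if_true, if_false, one_mul, fl_fl, ← mul_assoc, ch_sq']
      ring
    · simp only [h, h.ne', h.not_gt, if_true, if_false]
      push_cast
      ring
  have h3 : ∑ i ∈ T, ∑ j ∈ T, a i j + ∑ i ∈ T, ∑ j ∈ T, a j i = ∑ _i ∈ T, 2 * v x := by
    rw [← Finset.sum_add_distrib]
    refine Finset.sum_congr rfl fun i hi => ?_
    rw [← Finset.sum_add_distrib, Finset.sum_congr rfl fun j _ => h2 i j, Finset.sum_ite_eq, if_pos hi]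
  rw [Finset.sum_comm (f := fun i j => a j i), Finset.sum_const, nsmul_eq_mul] at h3
  linarith

theorem BB_symm (T : Finset (Fin n)) (v w : Cube n → ℝ) :
    ∑ x, BB T v x * w x = ∑ x, v x * BB T w x := by
  simp only [BB, Finset.sum_mul, Finset.mul_sum]
  rw [Finset.sum_comm, Finset.sum_comm (f := fun x i => v x * _)]
  refine Finset.sum_congr rfl fun i _ => ?_
  rw [← sum_fl i]
  refine Finset.sum_congr rfl fun x _ => ?_
  rw [fl_fl, ch_fl, if_neg (by simp), one_mul]
  ring

theorem BB_norm (T : Finset (Fin n)) (v : Cube n → ℝ) :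
    ∑ x, BB T v x ^ 2 = T.card * ∑ x, v x ^ 2 := by
  simp only [sq, BB_symm, BB_BB, Finset.mul_sum]
  exact Finset.sum_congr rfl fun _ _ => by ring

section Kotlov

variable {R : Cube n → Fin n → Prop}
  (hR : ∀ x z i, R x z → (∃ w, R (fl i x) w) → R (fl i x) z ∧ i ≠ z)
include hR

theorem eigen_zero {v : Cube n → ℝ} {c : ℝ} (hc : c ^ 2 = n) (hv : ∀ x, (¬ ∃ z, R x z) → v x = 0)
    (he : ∀ x, BB univ v x = c * v x) (x : Cube n) : v x = 0 := by
  classical
  by_contra hx
  obtain ⟨z, hz⟩ : ∃ z, R x z := not_not.1 fun h => hx (hv x h)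
  let u : Cube n → ℝ := fun y => if R y z then v y else 0
  have h1 : ∀ y, n * u y ^ 2 ≤ BB (univ.erase z) u y ^ 2 := by
    intro y
    by_cases hy : R y z
    · have : BB (univ.erase z) u y = c * u y := by
        simp only [u, if_pos hy]
        rw [← he, BB, BB, ← Finset.add_sum_erase _ _ (mem_univ z),
          hv (fl z y) fun h => (hR y z z hy h).2 rfl, mul_zero, zero_add]
        refine Finset.sum_congr rfl fun i _ => ?_
        split_ifs with h
        · rfl
        · rw [hv _ fun h' => h (hR y z i hy h').1]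
      rw [this, mul_pow, hc]
    · simp only [u, if_neg hy]
      simpa using sq_nonneg _
  have h2 := Finset.sum_le_sum fun y (_ : y ∈ univ) => h1 y
  rw [BB_norm, ← Finset.mul_sum, Finset.card_erase_of_mem (mem_univ z), card_univ,
    Fintype.card_fin, Nat.cast_pred z.pos] at h2
  have h3 : u x ^ 2 ≤ ∑ y, u y ^ 2 :=
    Finset.single_le_sum (f := fun y => u y ^ 2) (fun _ _ => sq_nonneg _) (mem_univ x)
  have h4 : 0 < u x ^ 2 := by
    simp only [u, if_pos hz]
    positivity
  linarith

open Classical in
theorem kotlov (hn : 0 < n) : 2 * (univ.filter fun x => ∃ z, R x z).card ≤ 2 ^ n := by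
  have hc : √(n : ℝ) ^ 2 = n := Real.sq_sqrt (Nat.cast_nonneg n)
  have c0 : 0 < √(n : ℝ) := Real.sqrt_pos.2 (by exact_mod_cast hn)
  let P : ℝ → (Cube n → ℝ) → Cube n → ℝ := fun e w x => (1 + e * ch univ x) * w x
  let Θ : ℝ → (Cube n → ℝ) →ₗ[ℝ] ({x : Cube n // ¬ ∃ z, R x z} → ℝ) := fun e =>
    { toFun := fun w x => BB univ (P e w) x.1 + √(n : ℝ) * P e w x.1
      map_add' := fun v w => by
        ext x
        simp only [BB, P, Pi.add_apply, mul_add, Finset.sum_add_distrib]
        ring
      map_smul' := fun a w => by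
        ext x
        simp only [BB, P, Pi.smul_apply, smul_eq_mul, RingHom.id_apply, mul_add, Finset.mul_sum]
        congr 1
        · exact Finset.sum_congr rfl fun _ _ => by ring
        · ring }
  have key : ∀ (e : ℝ) (w : Cube n → ℝ), Θ e w = 0 → ∀ x, e * ch univ x = 1 → w x = 0 := by
    intro e w hw x hx
    have h1 := eigen_zero hR (v := fun x => BB univ (P e w) x + √(n : ℝ) * P e w x) hc
      (fun y hy => congrFun hw ⟨y, hy⟩) (fun y => by
        have h2 := BB_BB univ (P e w) y
        rw [card_univ, Fintype.card_fin] at h2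
        have h3 : BB univ (fun x => BB univ (P e w) x + √(n : ℝ) * P e w x) y =
            BB univ (BB univ (P e w)) y + √(n : ℝ) * BB univ (P e w) y := by
          simp only [BB, mul_add, Finset.sum_add_distrib]
          rw [Finset.mul_sum _ _ √(n : ℝ)]
          exact congrArg _ (Finset.sum_congr rfl fun _ _ => by ring)
        rw [h3, h2]
        nth_rewrite 1 [← hc]
        ring) x
    have h4 : BB univ (P e w) x = 0 := Finset.sum_eq_zero fun i _ => by
      simp only [P, ch_fl, mem_univ, if_true]
      push_cast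
      rw [neg_one_mul, mul_neg, hx, add_neg_cancel, zero_mul, mul_zero]
    simp only [h4, zero_add, P, hx] at h1
    simpa [c0.ne'] using h1
  have inj : Function.Injective ((Θ 1).prod (Θ (-1))) := by
    refine (injective_iff_map_eq_zero _).2 fun w hw => funext fun x => ?_
    rcases mul_self_eq_one_iff.1 (ch_sq' univ x) with h | h
    · exact key 1 w (congrArg Prod.fst hw) x (by rw [h, one_mul])
    · exact key (-1) w (congrArg Prod.snd hw) x (by rw [h]; ring)
  have h1 := LinearMap.finrank_le_finrank_of_injective inj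
  rw [Module.finrank_prod, Module.finrank_fintype_fun_eq_card, Module.finrank_fintype_fun_eq_card,
    Fintype.card_subtype, card_cube] at h1
  have h2 := Finset.card_filter_add_card_filter_not (s := (univ : Finset (Cube n)))
    fun x => ∃ z, R x z
  rw [card_univ, card_cube] at h2
  omega

end Kotlov

end Pool.Agent.MP_163ab5_co
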