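import Mathlib
import Pool.Agent.MP_163ab5_co.Huang

/- Dense union-closed families in the cube with no element of frequency above one half. -/

set_option autoImplicit false

namespace Pool.Agent.MP_163ab5_co

open Finset
open scoped Classical

variable {n : ℕ}

/-- The indicator function. -/
noncomputable def ind (P : Cube n → Prop) (x : Cube n) : ℤ := if P x then 1 else 0

/-- The point `x` is outside the family and covers a member in direction `z`. -/
def Rt (P : Cube n → Prop) (x : Cube n) (z : Fin n) : Prop := ¬ P x ∧ x z = true ∧ P (fl z x)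

theorem zo_ind (P : Cube n → Prop) : Zo (ind P) := fun x => by
  unfold ind
  split_ifs <;> simp

theorem all_of_sum {P : Cube n → Prop} (h : ∑ x, ind P x = 2 ^ n) (x : Cube n) : P x := by
  have h1 : ∑ x, (1 - ind P x) = 0 := by rw [Finset.sum_sub_distrib, sum_const_cube, h]; ring
  have h2 := (Finset.sum_eq_zero_iff_of_nonneg fun y _ => by
    rcases zo_ind P y with a | a <;> simp [a]).1 h1 x (mem_univ x)
  by_contra hx
  simp [ind, hx] at h2

theorem fill {P : Cube n → Prop} (h : 2 * ∑ x, ind P x = 2 ^ n) {g : Cube n → ℤ}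
    (h0 : ∑ x, g x = 0) (h1 : ∀ x, -1 ≤ g x) (h2 : ∀ x, P x → g x = 1) (x : Cube n) :
    P x ↔ g x = 1 := by
  have h3 : ∑ x, (1 + g x - 2 * ind P x) = 0 := by
    rw [Finset.sum_sub_distrib, Finset.sum_add_distrib, sum_const_cube, ← Finset.mul_sum, h, h0]
    ring
  have h4 := (Finset.sum_eq_zero_iff_of_nonneg fun y _ => by
    unfold ind
    split_ifs with hy
    · simp [h2 y hy]
    · linarith [h1 y]).1 h3 x (mem_univ x)
  refine ⟨h2 x, fun hx => by_contra fun hP => ?_⟩
  simp [ind, hx, hP] at h4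

section UC

variable {P : Cube n → Prop} (hU : ∀ x y, P x → P y → P fun i => x i || y i)
include hU

theorem rt_unique {x : Cube n} {z w : Fin n} (h1 : Rt P x z) (h2 : Rt P x w) : z = w := by
  by_contra h
  refine h1.1 ?_
  convert hU _ _ h1.2.2 h2.2.2 with i
  by_cases a : i = z
  · subst a
    simp [fl_ne h, h1.2.1]
  · by_cases b : i = w
    · subst b
      simp [fl_ne a, h2.2.1]
    · simp [fl_ne a, fl_ne b]

theorem rt_step (x : Cube n) (z i : Fin n) (h1 : Rt P x z) (h2 : ∃ w, Rt P (fl i x) w) :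
    Rt P (fl i x) z ∧ i ≠ z := by
  obtain ⟨w, h2⟩ := h2
  have hi : i ≠ z := fun h => h2.1 (h ▸ h1.2.2)
  refine ⟨?_, hi⟩
  by_cases hw : w = z
  · exact hw ▸ h2
  have hwi : w ≠ i := fun h => h1.1 (by simpa [h, fl_fl] using h2.2.2)
  have h3 := hU _ _ h1.2.2 h2.2.2
  have h4 := h2.2.1
  rw [fl_ne hwi] at h4
  have key : ∀ j, j ≠ i → (fl z x j || fl w (fl i x) j) = x j := by
    intro j hj
    by_cases a : j = z
    · subst a
      simp [fl_ne (Ne.symm hw), fl_ne hj, h1.2.1]
    · by_cases b : j = w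
      · subst b
        simp [fl_ne a, h4]
      · simp [fl_ne a, fl_ne b, fl_ne hj]
  have key' : (fl z x i || fl w (fl i x) i) = true := by simp [fl_ne hi, fl_ne hwi.symm, fl_self]
  exfalso
  cases hx : x i
  · refine h2.1 ?_
    convert h3 with j
    by_cases a : j = i
    · rw [a, key', fl_self, hx]
      rfl
    · rw [key j a, fl_ne a]
  · refine h1.1 ?_
    convert h3 with j
    by_cases a : j = i
    · rw [a, key', hx]
    · rw [key j a]

theorem up_le : Bd (ind P) + ∑ i, cc (ind P) i ≤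
    2 * ((univ.filter fun x => ∃ z, Rt P x z).card : ℤ) := by
  rw [Bd_add_cc, Finset.card_filter, Nat.cast_sum, Finset.mul_sum]
  refine Finset.sum_le_sum fun y _ => ?_
  by_cases hy : P y
  · simp only [ind, if_pos hy, sub_self, zero_mul]
    positivity
  have h0 : ∀ i, ¬ Rt P y i → ind P (fl i y) * (1 - sg (y i)) = 0 := fun i hi => by
    by_cases a : P (fl i y)
    · cases b : y i
      · simp [sg]
      · exact (hi ⟨hy, b, a⟩).elim
    · simp [ind, a]
  split_ifs with h
  · obtain ⟨z, hz⟩ := h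
    rw [Finset.sum_eq_single z (fun i _ hi => h0 i fun h => hi (rt_unique hU h hz)) (by simp)]
    simp [ind, hy, hz.2.1, hz.2.2, sg]
  · rw [Finset.sum_eq_zero fun i _ => h0 i fun h' => h ⟨i, h'⟩]
    simp

omit hU in
theorem up_le' : ((univ.filter fun x => ∃ z, Rt P x z).card : ℤ) ≤ 2 ^ n - ∑ x, ind P x := by
  rw [Finset.card_filter, Nat.cast_sum, ← mul_one (2 ^ n : ℤ), ← sum_const_cube,
    ← Finset.sum_sub_distrib]
  refine Finset.sum_le_sum fun y _ => ?_
  split_ifs with h
  · obtain ⟨z, hz⟩ := h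
    simp [ind, hz.1]
  · rcases zo_ind P y with a | a <;> simp [a]

theorem all_of_sep (ha : ∀ x, P x → P (an x)) {x₀ : Cube n} (h0 : P x₀)
    (hs : ∀ i j, i ≠ j → ∃ x, P x ∧ x i ≠ x j) (y : Cube n) : P y := by
  have top : P fun _ => true := by
    convert hU _ _ h0 (ha _ h0) with i
    simp [an]
  have h1 : ∀ (i : Fin n) (T : Finset (Fin n)), ∃ x, P x ∧ x i = false ∧
      ∀ j ∈ T, j ≠ i → x j = true := by
    intro i T
    induction T using Finset.induction_on with
    | empty => exact ⟨_, ha _ top, rfl, by simp⟩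
    | insert j T _ ih =>
      obtain ⟨x, hx, hi, hT⟩ := ih
      by_cases hj : j = i
      · exact ⟨x, hx, hi, by simpa [hj] using hT⟩
      obtain ⟨u, hu, hu'⟩ : ∃ u, P u ∧ u i = false ∧ u j = true := by
        obtain ⟨u, hu, hu'⟩ := hs i j (Ne.symm hj)
        cases a : u i
        · exact ⟨u, hu, a, by simpa [a] using hu'⟩
        · exact ⟨an u, ha u hu, by simp [an, a], by simpa [an, a] using hu'⟩
      refine ⟨_, hU _ _ hx hu, by simp [hi, hu'.1], fun l hl hli => ?_⟩
      rcases Finset.mem_insert.1 hl with rfl | hl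
      · simp [hu'.2]
      · simp [hT l hl hli]
  have h2 : ∀ T : Finset (Fin n), P fun j => decide (j ∈ T) := by
    intro T
    induction T using Finset.induction_on with
    | empty =>
      simp only [Finset.notMem_empty, decide_false]
      exact ha _ top
    | insert i T _ ih =>
      obtain ⟨x, hx, hi, hT⟩ := h1 i univ
      convert hU _ _ (ha x hx) ih with j
      by_cases a : j = i
      · simp [a, an, hi]
      · simp [a, an, hT j (mem_univ j) a]
  simpa using h2 (univ.filter fun j => y j = true)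

theorem core (hc : ∀ i, 0 ≤ cc (ind P) i) (hd : 3 * 2 ^ n < 8 * ∑ x, ind P x) :
    (∀ x, P x) ∨ (∃ i, ∀ x, P x ↔ x i = false) ∨ ∃ i j, i ≠ j ∧ ∀ x, P x ↔ x i = x j := by
  obtain ⟨k, hk, hk'⟩ := (zo_ind P).nat
  have N0 : (0 : ℤ) < 2 ^ n := by positivity
  have hN : ((2 ^ n : ℕ) : ℤ) = 2 ^ n := by push_cast; rfl
  by_cases hall : (k : ℤ) = 2 ^ n
  · exact Or.inl (all_of_sum (hk.trans hall))
  refine Or.inr ?_
  have hn : 0 < n := Nat.pos_of_ne_zero fun h => by
    subst h
    omega
  have u1 := up_le hU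
  have u2 := up_le' (P := P)
  have u3 : 2 * ((univ.filter fun x => ∃ z, Rt P x z).card : ℤ) ≤ 2 ^ n := by
    exact_mod_cast kotlov (rt_step hU) hn
  have l0 := level (zo_ind P) le_rfl zero_le_one
  have l1 := level (zo_ind P) zero_le_one le_rfl
  have c1 := cc_le (zo_ind P)
  rw [hk] at hd u2 l0 l1 c1
  have s0 : ∀ i, 0 ≤ cc (ind P) i * (2 ^ n - 2 * cc (ind P) i) := fun i =>
    mul_nonneg (hc i) (by linarith [(c1 i).1, (c1 i).2])
  have e : ∀ a : ℤ, ∑ i, cc (ind P) i * (2 ^ n - a * cc (ind P) i) =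
      2 ^ n * ∑ i, cc (ind P) i - a * ∑ i, cc (ind P) i ^ 2 := fun a => by
    rw [Finset.mul_sum, Finset.mul_sum, ← Finset.sum_sub_distrib]
    exact Finset.sum_congr rfl fun _ _ => by ring
  have s1 := Finset.sum_nonneg fun i (_ : i ∈ univ) => s0 i
  have m1 := mul_le_mul_of_nonneg_left (u1.trans u3) N0.le
  have m2 := mul_le_mul_of_nonneg_left (u1.trans (mul_le_mul_of_nonneg_left u2 zero_le_two)) N0.le
  have hk1 : (k : ℤ) < 2 ^ n := by omega
  have hk2 : 2 * (k : ℤ) ≤ 2 ^ n := by
    rw [e] at s1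
    by_contra h
    nlinarith [mul_pos (sub_pos.2 hk1) (sub_pos.2 (not_le.1 h))]
  by_cases hbig : ∃ i, 2 ^ n < 4 * cc (ind P) i
  · obtain ⟨i, hi⟩ := hbig
    have s2 : cc (ind P) i * (2 ^ n - 2 * cc (ind P) i) ≤ (2 ^ n - 2 * k) ^ 2 := by
      refine (Finset.single_le_sum (fun j _ => s0 j) (mem_univ i)).trans ?_
      rw [e]
      nlinarith
    have h1 := (c1 i).1
    have h2 : 2 * (k : ℤ) = 2 ^ n := by
      by_contra h
      have h3 : 0 < 2 ^ n - 2 * (k : ℤ) := by omega
      nlinarith [mul_le_mul_of_nonneg_left h1 (hc i), mul_pos h3 (sub_pos.2 hi),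
        mul_pos h3 (sub_pos.2 hd)]
    have h3 : cc (ind P) i = k := by nlinarith
    have h4 : ∑ x, ind P x * (1 - sg (x i)) = 0 := by
      simp only [mul_sub, Finset.sum_sub_distrib, mul_one]
      rw [hk, ← h3, cc, sub_self]
    refine Or.inl ⟨i, fun x => (fill (hk ▸ h2) (sum_sg i) (fun y => by cases y i <;> simp [sg])
      (fun y hy => ?_) x).trans (by cases x i <;> simp [sg])⟩
    have := (Finset.sum_eq_zero_iff_of_nonneg fun y _ => by
      rcases zo_ind P y with a | a <;> cases y i <;> simp [a, sg]).1 h4 y (mem_univ y)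
    simp only [ind, if_pos hy] at this
    linarith
  refine Or.inr ?_
  have s2 := Finset.sum_nonneg fun i (_ : i ∈ univ) =>
    mul_nonneg (hc i) (sub_nonneg.2 (not_lt.1 fun h => hbig ⟨i, h⟩))
  rw [e] at s2
  have s3 : 2 ^ n * Od (ind P) ≤ (2 ^ n - 2 * k) ^ 2 := by nlinarith
  have h2 : 2 * (k : ℤ) = 2 ^ n := by
    by_contra h
    have h3 : 0 < 2 ^ n - 2 * (k : ℤ) := by omega
    have h4 : 4 * Od (ind P) < 2 ^ n - 2 * k := by
      refine lt_of_mul_lt_mul_left ?_ N0.le
      nlinarith [mul_pos h3 (sub_pos.2 hd)]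
    have h5 : 4 ≤ n := by
      by_contra h6
      interval_cases n <;> omega
    obtain ⟨m, rfl⟩ := Nat.exists_eq_add_of_le' h5
    have h6 : (2 : ℤ) ^ (m + 4) = 16 * 2 ^ m := by ring
    have h7 := Bd_gt (zo_ind P) (by omega) (by omega) (by omega) (by omega)
    have h8 := Finset.sum_nonneg fun i (_ : i ∈ univ) => hc i
    omega
  have t0 : ∀ x ∈ univ, 0 ≤ ind P x * (1 - ind P (an x)) := fun x _ => by
    rcases zo_ind P x with a | a <;> rcases zo_ind P (an x) with b | b <;> simp [a, b]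
  have h3 : Od (ind P) = 0 := le_antisymm (by nlinarith) (Finset.sum_nonneg t0)
  have ha : ∀ x, P x → P (an x) := fun x hx => by_contra fun h => by
    simpa [ind, hx, h] using (Finset.sum_eq_zero_iff_of_nonneg t0).1 h3 x (mem_univ x)
  obtain ⟨x₀, h0⟩ : ∃ x, P x := by_contra fun h => by
    rw [Finset.sum_eq_zero (f := ind P) fun x _ => if_neg fun hx => h ⟨x, hx⟩] at hk
    omega
  by_contra h
  refine hall (hk.symm.trans ?_)
  rw [← mul_one (2 ^ n : ℤ), ← sum_const_cube]
  refine Finset.sum_congr rfl fun y _ => if_pos (all_of_sep hU ha h0 (fun i j hij => ?_) y)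
  by_contra h'
  refine h ⟨i, j, hij, fun x => (fill (g := fun x => sg (x i) * sg (x j)) (hk ▸ h2) ?_
    (fun y => by cases y i <;> cases y j <;> simp [sg]) (fun y hy => ?_) x).trans
      (by cases x i <;> cases x j <;> simp [sg])⟩
  · have := sum_fl i fun x : Cube n => sg (x i) * sg (x j)
    simp only [fl_self, fl_ne hij.symm, sg_not, neg_mul, Finset.sum_neg_distrib] at this
    linarith
  · rw [not_not.1 fun a => h' ⟨y, hy, a⟩]
    exact sg_sq _

end UC

end Pool.Agent.MP_163ab5_co
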