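import Mathlib
import Pool.Agent.MP_163ab5_co.VC.Main

set_option autoImplicit false

namespace Pool.Agent.MP_163ab5_co.VCBound

/-- A union-closed family with no element in more than half of its members has size bounded in
terms of its VC-dimension. -/
theorem vc_bound (A : Finset (Finset ℕ)) (hc : ∀ X ∈ A, ∀ Y ∈ A, X ∪ Y ∈ A)
    (hf : ∀ i : ℕ, 2 * (A.filter (fun X => i ∈ X)).card ≤ A.card) :
    A.card ≤ 2 ^ 2 ^ (1230 * (A.vcDim + 1) ^ 3) := by
  simpa using Pool.Agent.MP_163ab5_co.VC.main hc ∅ fun e _ => hf e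

end Pool.Agent.MP_163ab5_co.VCBound
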